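import Pool.Agent.H1.HermE

set_option autoImplicit false

namespace Pool.Agent.Results.MP_37b94e_an.HyperplaneRank

open Pool.Agent.H1.Herm

/-- If a real-analytic function `p` on `ℂⁿ`, `n ≥ 2`, has rank at most `k` on every complex affine
hyperplane (parametrised by an injective complex affine map from `ℂⁿ⁻¹`), then `p` has rank at most
`2 * k ^ 4` on `ℂⁿ`. -/
theorem result : ∀ n : ℕ, 2 ≤ n → ∀ k : ℕ, ∀ p : (Fin n → ℂ) → ℝ, AnalyticOnNhd ℝ p Set.univ →
    (∀ φ : (Fin (n - 1) → ℂ) →ᵃ[ℂ] (Fin n → ℂ), Function.Injective φ → RankLE (p ∘ φ) k) →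
    RankLE p (2 * k ^ 4) := by
  intro n hn k p hp hH
  obtain ⟨m, rfl⟩ : ∃ m, n = m + 1 := ⟨n - 1, by omega⟩
  have h := final (m := m) (k := k) (by omega) hp hH
  have e : 2 * ((k * k) * (k * k)) = 2 * k ^ 4 := by ring
  rw [← e]
  exact h

end Pool.Agent.Results.MP_37b94e_an.HyperplaneRank
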